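import Pool.Agent.Work.MP_65e34f.Basic

/-! Block ICO: pairs generating binary tetrahedral and binary icosahedral groups. -/

namespace Pool.FG.helper30

open Matrix Pool.FG

/-- quaternions with coordinates `a + b φ`, doubled -/
structure Qn where
  w : ℤ × ℤ
  x : ℤ × ℤ
  y : ℤ × ℤ
  z : ℤ × ℤ
deriving DecidableEq

/-- multiplication of numbers, `φ² = u φ + u` -/
def mulN (u : ℤ) (p q : ℤ × ℤ) : ℤ × ℤ :=
  (p.1 * q.1 + u * (p.2 * q.2), p.1 * q.2 + p.2 * q.1 + u * (p.2 * q.2))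

def addN (p q : ℤ × ℤ) : ℤ × ℤ := (p.1 + q.1, p.2 + q.2)

def subN (p q : ℤ × ℤ) : ℤ × ℤ := (p.1 - q.1, p.2 - q.2)

def mulQ (u : ℤ) (p q : Qn) : Qn :=
  ⟨subN (subN (subN (mulN u p.w q.w) (mulN u p.x q.x)) (mulN u p.y q.y)) (mulN u p.z q.z),
   subN (addN (addN (mulN u p.w q.x) (mulN u p.x q.w)) (mulN u p.y q.z)) (mulN u p.z q.y),
   addN (addN (subN (mulN u p.w q.y) (mulN u p.x q.z)) (mulN u p.y q.w)) (mulN u p.z q.x),
   addN (subN (addN (mulN u p.w q.z) (mulN u p.x q.y)) (mulN u p.y q.x)) (mulN u p.z q.w)⟩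

def dbl (p : Qn) : Qn := ⟨addN p.w p.w, addN p.x p.x, addN p.y p.y, addN p.z p.z⟩

def negQ (p : Qn) : Qn := ⟨subN (0, 0) p.w, subN (0, 0) p.x, subN (0, 0) p.y, subN (0, 0) p.z⟩

def conjQ (p : Qn) : Qn := ⟨p.w, subN (0, 0) p.x, subN (0, 0) p.y, subN (0, 0) p.z⟩

def nrm (u : ℤ) (p : Qn) : ℤ × ℤ :=
  addN (addN (addN (mulN u p.w p.w) (mulN u p.x p.x)) (mulN u p.y p.y)) (mulN u p.z p.z)

/-- right multiplication by `g` preserves `± T` -/
def stab (u : ℤ) (T : List Qn) (g : Qn) : Bool :=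
  T.all fun t => T.any fun t' =>
    decide (mulQ u t g = dbl t') || decide (mulQ u t g = negQ (dbl t'))

def chk (u : ℤ) (T : List Qn) (tx ty txy : Qn) : Bool :=
  decide (nrm u tx = (4, 0)) && decide (nrm u ty = (4, 0)) && decide (mulQ u tx ty = dbl txy) &&
  stab u T tx && stab u T (conjQ tx) && stab u T ty && stab u T (conjQ ty) &&
  (T.any fun t => decide (t = ⟨(2, 0), (0, 0), (0, 0), (0, 0)⟩))

def T60 : List Qn := [
  ⟨(2, 0), (0, 0), (0, 0), (0, 0)⟩,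
  ⟨(1, 0), (1, 0), (1, 0), (1, 0)⟩,
  ⟨(1, 0), (1, 0), (1, 0), (-1, 0)⟩,
  ⟨(1, 0), (1, 0), (-1, 0), (1, 0)⟩,
  ⟨(1, 0), (1, 0), (-1, 0), (-1, 0)⟩,
  ⟨(1, 0), (1, -1), (0, 1), (0, 0)⟩,
  ⟨(1, 0), (1, -1), (0, -1), (0, 0)⟩,
  ⟨(1, 0), (0, 1), (0, 0), (1, -1)⟩,
  ⟨(1, 0), (0, 1), (0, 0), (-1, 1)⟩,
  ⟨(1, 0), (0, 0), (1, -1), (0, 1)⟩,
  ⟨(1, 0), (0, 0), (1, -1), (0, -1)⟩,
  ⟨(1, 0), (0, 0), (-1, 1), (0, 1)⟩,
  ⟨(1, 0), (0, 0), (-1, 1), (0, -1)⟩,
  ⟨(1, 0), (0, -1), (0, 0), (1, -1)⟩,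
  ⟨(1, 0), (0, -1), (0, 0), (-1, 1)⟩,
  ⟨(1, 0), (-1, 1), (0, 1), (0, 0)⟩,
  ⟨(1, 0), (-1, 1), (0, -1), (0, 0)⟩,
  ⟨(1, 0), (-1, 0), (1, 0), (1, 0)⟩,
  ⟨(1, 0), (-1, 0), (1, 0), (-1, 0)⟩,
  ⟨(1, 0), (-1, 0), (-1, 0), (1, 0)⟩,
  ⟨(1, 0), (-1, 0), (-1, 0), (-1, 0)⟩,
  ⟨(1, -1), (1, 0), (0, 0), (0, 1)⟩,
  ⟨(1, -1), (1, 0), (0, 0), (0, -1)⟩,
  ⟨(1, -1), (0, 1), (1, 0), (0, 0)⟩,
  ⟨(1, -1), (0, 1), (-1, 0), (0, 0)⟩,
  ⟨(1, -1), (0, 0), (0, 1), (1, 0)⟩,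
  ⟨(1, -1), (0, 0), (0, 1), (-1, 0)⟩,
  ⟨(1, -1), (0, 0), (0, -1), (1, 0)⟩,
  ⟨(1, -1), (0, 0), (0, -1), (-1, 0)⟩,
  ⟨(1, -1), (0, -1), (1, 0), (0, 0)⟩,
  ⟨(1, -1), (0, -1), (-1, 0), (0, 0)⟩,
  ⟨(1, -1), (-1, 0), (0, 0), (0, 1)⟩,
  ⟨(1, -1), (-1, 0), (0, 0), (0, -1)⟩,
  ⟨(0, 1), (1, 0), (1, -1), (0, 0)⟩,
  ⟨(0, 1), (1, 0), (-1, 1), (0, 0)⟩,
  ⟨(0, 1), (1, -1), (0, 0), (1, 0)⟩,
  ⟨(0, 1), (1, -1), (0, 0), (-1, 0)⟩,
  ⟨(0, 1), (0, 0), (1, 0), (1, -1)⟩,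
  ⟨(0, 1), (0, 0), (1, 0), (-1, 1)⟩,
  ⟨(0, 1), (0, 0), (-1, 0), (1, -1)⟩,
  ⟨(0, 1), (0, 0), (-1, 0), (-1, 1)⟩,
  ⟨(0, 1), (-1, 1), (0, 0), (1, 0)⟩,
  ⟨(0, 1), (-1, 1), (0, 0), (-1, 0)⟩,
  ⟨(0, 1), (-1, 0), (1, -1), (0, 0)⟩,
  ⟨(0, 1), (-1, 0), (-1, 1), (0, 0)⟩,
  ⟨(0, 0), (2, 0), (0, 0), (0, 0)⟩,
  ⟨(0, 0), (1, 0), (0, 1), (1, -1)⟩,
  ⟨(0, 0), (1, 0), (0, 1), (-1, 1)⟩,
  ⟨(0, 0), (1, 0), (0, -1), (1, -1)⟩,
  ⟨(0, 0), (1, 0), (0, -1), (-1, 1)⟩,
  ⟨(0, 0), (1, -1), (1, 0), (0, 1)⟩,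
  ⟨(0, 0), (1, -1), (1, 0), (0, -1)⟩,
  ⟨(0, 0), (1, -1), (-1, 0), (0, 1)⟩,
  ⟨(0, 0), (1, -1), (-1, 0), (0, -1)⟩,
  ⟨(0, 0), (0, 1), (1, -1), (1, 0)⟩,
  ⟨(0, 0), (0, 1), (1, -1), (-1, 0)⟩,
  ⟨(0, 0), (0, 1), (-1, 1), (1, 0)⟩,
  ⟨(0, 0), (0, 1), (-1, 1), (-1, 0)⟩,
  ⟨(0, 0), (0, 0), (2, 0), (0, 0)⟩,
  ⟨(0, 0), (0, 0), (0, 0), (2, 0)⟩]

def T12 : List Qn := [
  ⟨(2, 0), (0, 0), (0, 0), (0, 0)⟩,
  ⟨(1, 0), (1, 0), (1, 0), (1, 0)⟩,
  ⟨(1, 0), (1, 0), (1, 0), (-1, 0)⟩,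
  ⟨(1, 0), (1, 0), (-1, 0), (1, 0)⟩,
  ⟨(1, 0), (1, 0), (-1, 0), (-1, 0)⟩,
  ⟨(1, 0), (-1, 0), (1, 0), (1, 0)⟩,
  ⟨(1, 0), (-1, 0), (1, 0), (-1, 0)⟩,
  ⟨(1, 0), (-1, 0), (-1, 0), (1, 0)⟩,
  ⟨(1, 0), (-1, 0), (-1, 0), (-1, 0)⟩,
  ⟨(0, 0), (2, 0), (0, 0), (0, 0)⟩,
  ⟨(0, 0), (0, 0), (2, 0), (0, 0)⟩,
  ⟨(0, 0), (0, 0), (0, 0), (2, 0)⟩]

section
variable {K : Type} [Field K]

/-- value of a number -/
def val (φ : K) (p : ℤ × ℤ) : K := (p.1 : K) + (p.2 : K) * φ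

lemma val_mul {φ : K} {u : ℤ} (hφ : φ ^ 2 = (u : K) * φ + (u : K)) (p q : ℤ × ℤ) :
    val φ (mulN u p q) = val φ p * val φ q := by
  simp only [val, mulN]
  push_cast
  linear_combination (-(p.2 : K) * (q.2 : K)) * hφ

lemma val_add (φ : K) (p q : ℤ × ℤ) : val φ (addN p q) = val φ p + val φ q := by
  simp only [val, addN]
  push_cast
  ring

lemma val_sub (φ : K) (p q : ℤ × ℤ) : val φ (subN p q) = val φ p - val φ q := by
  simp only [val, subN]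
  push_cast
  ring

lemma val_zero (φ : K) : val φ (0, 0) = 0 := by simp [val]

/-- the matrix of a quaternion -/
def FK (a b w x y z : K) : M2 K :=
  !![w + (a * y - b * z), -x + (b * y + a * z); x + (b * y + a * z), w - (a * y - b * z)]

lemma FK_mul {a b : K} (hab : a ^ 2 + b ^ 2 = -1) (w x y z w' x' y' z' : K) :
    FK a b w x y z * FK a b w' x' y' z' =
      FK a b (w * w' - x * x' - y * y' - z * z') (w * x' + x * w' + y * z' - z * y')
        (w * y' - x * z' + y * w' + z * x') (w * z' + x * y' - y * x' + z * w') := by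
  ext i j
  fin_cases i <;> fin_cases j <;>
    simp [FK, Matrix.mul_apply, Fin.sum_univ_two]
  · linear_combination (y * y' + z * z') * hab
  · linear_combination (y * z' - z * y') * hab
  · linear_combination (z * y' - y * z') * hab
  · linear_combination (y * y' + z * z') * hab

lemma FK_det {a b : K} (hab : a ^ 2 + b ^ 2 = -1) (w x y z : K) :
    (FK a b w x y z).det = w ^ 2 + x ^ 2 + y ^ 2 + z ^ 2 := by
  rw [Matrix.det_fin_two]
  simp only [FK, Matrix.of_apply, Matrix.cons_val', Matrix.cons_val_zero, Matrix.cons_val_one,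
    Matrix.empty_val', Matrix.cons_val_fin_one]
  linear_combination (-(y ^ 2 + z ^ 2)) * hab

/-- the matrix of a (doubled) quaternion -/
def f (a b φ : K) (t : Qn) : M2 K := FK a b (val φ t.w) (val φ t.x) (val φ t.y) (val φ t.z)

lemma f_mul {a b φ : K} {u : ℤ} (hab : a ^ 2 + b ^ 2 = -1) (hφ : φ ^ 2 = (u : K) * φ + (u : K))
    (t t' : Qn) : f a b φ t * f a b φ t' = f a b φ (mulQ u t t') := by
  simp only [f, mulQ, FK_mul hab, val_mul hφ, val_add, val_sub]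

lemma f_dbl (a b φ : K) (t : Qn) : f a b φ (dbl t) = (2 : K) • f a b φ t := by
  simp only [f, dbl, val_add]
  ext i j
  fin_cases i <;> fin_cases j <;> simp [FK] <;> ring

lemma f_neg (a b φ : K) (t : Qn) : f a b φ (negQ t) = -f a b φ t := by
  simp only [f, negQ, val_sub, val_zero]
  ext i j
  fin_cases i <;> fin_cases j <;> simp [FK] <;> ring

lemma f_det {a b φ : K} {u : ℤ} (hab : a ^ 2 + b ^ 2 = -1) (hφ : φ ^ 2 = (u : K) * φ + (u : K))
    (t : Qn) : (f a b φ t).det = val φ (nrm u t) := by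
  simp only [f, FK_det hab, nrm, val_add, val_mul hφ]
  ring

/-- the set `± T` -/
def S (a b φ : K) (T : List Qn) : Set (SL K) :=
  {g | ∃ t ∈ T, (2 : K) • (g : M2 K) = f a b φ t ∨ (2 : K) • (g : M2 K) = -f a b φ t}

lemma S_mul {a b φ : K} {u : ℤ} (hab : a ^ 2 + b ^ 2 = -1) (hφ : φ ^ 2 = (u : K) * φ + (u : K))
    (h2 : (2 : K) ≠ 0) (T : List Qn) (h : SL K) (t0 : Qn) (ht0 : (2 : K) • (h : M2 K) = f a b φ t0)
    (hs : stab u T t0 = true) (g : SL K) (hg : g ∈ S a b φ T) : g * h ∈ S a b φ T := by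
  obtain ⟨t, ht, hgt⟩ := hg
  have h4 : (4 : K) • ((g : M2 K) * (h : M2 K)) = ((2 : K) • (g : M2 K)) * ((2 : K) • (h : M2 K)) := by
    rw [smul_mul_smul_comm]; norm_num
  simp only [stab, List.all_eq_true, List.any_eq_true, Bool.or_eq_true, decide_eq_true_eq] at hs
  obtain ⟨t', ht', hm⟩ := hs t ht
  have hm2 : f a b φ t * f a b φ t0 = (2 : K) • f a b φ t' ∨
      f a b φ t * f a b φ t0 = -((2 : K) • f a b φ t') := by
    rw [f_mul hab hφ]
    rcases hm with hm | hm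
    · left; rw [hm, f_dbl]
    · right; rw [hm, f_neg, f_dbl]
  have hinj : ∀ X Y : M2 K, (4 : K) • X = (2 : K) • Y → (2 : K) • X = Y := by
    intro X Y hXY
    have : (2 : K) • ((2 : K) • X) = (2 : K) • Y := by
      rw [smul_smul]; norm_num; exact hXY
    exact (smul_right_injective _ h2) this
  refine ⟨t', ht', ?_⟩
  rw [Matrix.SpecialLinearGroup.coe_mul]
  rcases hgt with hgt | hgt <;> rcases hm2 with hm2 | hm2
  · left; apply hinj; rw [h4, hgt, ht0, hm2]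
  · right; apply hinj; rw [h4, hgt, ht0, hm2, smul_neg]
  · right; apply hinj; rw [h4, hgt, ht0, neg_mul, hm2, smul_neg]
  · left; apply hinj; rw [h4, hgt, ht0, neg_mul, hm2, neg_neg]

lemma S_neg {a b φ : K} (T : List Qn) (g : SL K) (hg : g ∈ S a b φ T) : -g ∈ S a b φ T := by
  obtain ⟨t, ht, hgt⟩ := hg
  refine ⟨t, ht, ?_⟩
  rw [Matrix.SpecialLinearGroup.coe_neg, smul_neg]
  rcases hgt with hgt | hgt
  · right; rw [hgt]
  · left; rw [hgt, neg_neg]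

lemma S_card [Finite K] {a b φ : K} (h2 : (2 : K) ≠ 0) (T : List Qn) :
    (S a b φ T).ncard ≤ 2 * T.length := by
  classical
  have hinj : Function.Injective (fun g : SL K => (2 : K) • (g : M2 K)) := by
    intro g h hgh
    exact Subtype.ext ((smul_right_injective _ h2) hgh)
  rw [← Set.ncard_image_of_injective _ hinj]
  have hsub : (fun g : SL K => (2 : K) • (g : M2 K)) '' (S a b φ T) ⊆
      (((T.map (f a b φ) ++ T.map (fun t => -f a b φ t)).toFinset : Finset (M2 K)) :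
        Set (M2 K)) := by
    rintro _ ⟨g, ⟨t, ht, hgt⟩, rfl⟩
    simp only [List.coe_toFinset, List.mem_append, List.mem_map, Set.mem_ofPred_eq]
    rcases hgt with hgt | hgt
    · left; exact ⟨t, ht, hgt.symm⟩
    · right; exact ⟨t, ht, hgt.symm⟩
  refine (Set.ncard_le_ncard hsub (Finset.finite_toSet _)).trans ?_
  rw [Set.ncard_coe_finset]
  refine (List.toFinset_card_le _).trans ?_
  simp; omega

lemma master [Finite K] {a b φ : K} {u : ℤ} (hab : a ^ 2 + b ^ 2 = -1)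
    (hφ : φ ^ 2 = (u : K) * φ + (u : K)) (h2 : (2 : K) ≠ 0) (T : List Qn) (hT : T.length ≤ 60)
    (tx ty txy : Qn) (hc : chk u T tx ty txy = true) :
    ∃ x y : SL K, tr x = val φ tx.w ∧ tr y = val φ ty.w ∧ tr (x * y) = val φ txy.w ∧
      Nat.card (Subgroup.closure {x, y, -1} : Subgroup (SL K)) ≤ 120 := by
  simp only [chk, Bool.and_eq_true, decide_eq_true_eq] at hc
  obtain ⟨⟨⟨⟨⟨⟨⟨n1, n2⟩, hxy⟩, s1⟩, s2⟩, s3⟩, s4⟩, hone⟩ := hc
  have h4 : (4 : K) ≠ 0 := by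
    have : (4 : K) = 2 * 2 := by norm_num
    rw [this]; exact mul_ne_zero h2 h2
  have mk : ∀ t : Qn, nrm u t = (4, 0) → ∃ g : SL K, (2 : K) • (g : M2 K) = f a b φ t := by
    intro t ht
    refine ⟨⟨(2 : K)⁻¹ • f a b φ t, ?_⟩, ?_⟩
    · rw [Matrix.det_smul, f_det hab hφ, ht]
      simp only [Fintype.card_fin, val]
      push_cast
      field_simp
      norm_num
    · change (2 : K) • ((2 : K)⁻¹ • f a b φ t) = _
      rw [smul_smul, mul_inv_cancel₀ h2, one_smul]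
  obtain ⟨x, hx⟩ := mk tx n1
  obtain ⟨y, hy⟩ := mk ty n2
  have trf : ∀ (g : SL K) (t : Qn), (2 : K) • (g : M2 K) = f a b φ t → tr g = val φ t.w := by
    intro g t h
    have h0 := congrFun (congrFun h 0) 0
    have h1 := congrFun (congrFun h 1) 1
    simp [f, FK] at h0 h1
    have : (2 : K) * (tr g) = 2 * val φ t.w := by
      unfold tr
      linear_combination h0 + h1
    exact mul_left_cancel₀ h2 this
  have invf : ∀ (g : SL K) (t : Qn), (2 : K) • (g : M2 K) = f a b φ t →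
      (2 : K) • ((g⁻¹ : SL K) : M2 K) = f a b φ (conjQ t) := by
    intro g t h
    rw [inv_eq, trf g t h, smul_sub, h]
    ext i j
    fin_cases i <;> fin_cases j <;>
      simp [f, FK, conjQ, val_sub, val_zero] <;> ring
  have hxy2 : (2 : K) • ((x * y : SL K) : M2 K) = f a b φ txy := by
    have : (2 : K) • ((2 : K) • ((x * y : SL K) : M2 K)) = (2 : K) • f a b φ txy := by
      rw [← f_dbl, ← hxy, ← f_mul hab hφ, ← hx, ← hy, smul_mul_smul_comm, smul_smul,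
        Matrix.SpecialLinearGroup.coe_mul]
    exact (smul_right_injective _ h2) this
  refine ⟨x, y, trf _ _ hx, trf _ _ hy, trf _ _ hxy2, ?_⟩
  have hsub : ((Subgroup.closure {x, y, -1} : Subgroup (SL K)) : Set (SL K)) ⊆ S a b φ T := by
    intro g hg
    induction hg using Subgroup.closure_induction_right with
    | one =>
      simp only [List.any_eq_true, decide_eq_true_eq] at hone
      obtain ⟨t, ht, hte⟩ := hone
      refine ⟨t, ht, Or.inl ?_⟩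
      rw [hte]
      ext i j
      fin_cases i <;> fin_cases j <;> simp [f, FK, val]
    | mul_right g hg z hz ih =>
      simp only [Set.mem_insert_iff, Set.mem_singleton_iff] at hz
      rcases hz with rfl | rfl | rfl
      · exact S_mul hab hφ h2 T _ tx hx s1 _ ih
      · exact S_mul hab hφ h2 T _ ty hy s3 _ ih
      · rw [mul_neg, mul_one]; exact S_neg T _ ih
    | mul_inv_cancel g hg z hz ih =>
      simp only [Set.mem_insert_iff, Set.mem_singleton_iff] at hz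
      rcases hz with rfl | rfl | rfl
      · exact S_mul hab hφ h2 T _ (conjQ tx) (invf _ _ hx) s2 _ ih
      · exact S_mul hab hφ h2 T _ (conjQ ty) (invf _ _ hy) s4 _ ih
      · rw [inv_neg, inv_one, mul_neg, mul_one]; exact S_neg T _ ih
  calc Nat.card (Subgroup.closure {x, y, -1} : Subgroup (SL K))
      = ((Subgroup.closure {x, y, -1} : Subgroup (SL K)) : Set (SL K)).ncard := rfl
    _ ≤ (S a b φ T).ncard := Set.ncard_le_ncard hsub (Set.toFinite _)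
    _ ≤ 2 * T.length := S_card h2 T
    _ ≤ 120 := by omega

/-! ### powers -/

lemma pow2_of_tr {x : SL K} (h : tr x = 0) : Sc (x ^ 2) := by
  right
  apply Subtype.ext
  rw [pow_two, Matrix.SpecialLinearGroup.coe_mul, mul_self_eq, h, zero_smul, zero_sub]
  rfl

lemma pow3_of_tr {x : SL K} (h : tr x = 1 ∨ tr x = -1) : Sc (x ^ 3) := by
  have h0 := mul_self_eq x
  rcases h with h | h
  · right
    apply Subtype.ext
    rw [pow_succ, pow_two, Matrix.SpecialLinearGroup.coe_mul, Matrix.SpecialLinearGroup.coe_mul, h0,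
      h, one_smul, sub_mul, one_mul, h0, h, one_smul, sub_sub_cancel_left]
    rfl
  · left
    apply Subtype.ext
    rw [pow_succ, pow_two, Matrix.SpecialLinearGroup.coe_mul, Matrix.SpecialLinearGroup.coe_mul, h0,
      h, neg_smul, one_smul, sub_mul, neg_mul, one_mul, h0, h, neg_smul, one_smul]
    simp

lemma pow5_of_tr {x : SL K} (h : tr x ^ 2 = tr x + 1 ∨ tr x ^ 2 = -tr x + 1) : Sc (x ^ 5) := by
  have h0 := mul_self_eq x
  generalize tr x = t at h h0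
  have h3 : (x : M2 K) * (x : M2 K) * (x : M2 K) = (t ^ 2 - 1) • (x : M2 K) - t • 1 := by
    rw [h0, sub_mul, one_mul, smul_mul_assoc, h0, smul_sub, smul_smul, sub_smul, one_smul, pow_two]
    abel
  have h5 : ((x ^ 5 : SL K) : M2 K) =
      (t * (t ^ 2 - 1) * t - (t ^ 2 - 1) - t ^ 2) • (x : M2 K) - ((t ^ 2 - 1) * t - t) • 1 := by
    have : ((x ^ 5 : SL K) : M2 K) =
        (x : M2 K) * (x : M2 K) * (x : M2 K) * ((x : M2 K) * (x : M2 K)) := by
      rw [Matrix.SpecialLinearGroup.coe_pow]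
      simp only [pow_succ, pow_zero, one_mul, mul_assoc]
    rw [this, h3, h0]
    simp only [sub_mul, mul_sub, smul_mul_assoc, mul_smul_comm, h0, one_mul, mul_one, smul_sub,
      smul_smul]
    module
  rcases h with h | h
  · right
    apply Subtype.ext
    rw [h5]
    have e1 : t * (t ^ 2 - 1) * t - (t ^ 2 - 1) - t ^ 2 = 0 := by
      linear_combination (t ^ 2 + t - 1) * h
    have e2 : (t ^ 2 - 1) * t - t = 1 := by
      linear_combination (t + 1) * h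
    rw [e1, e2, zero_smul, one_smul, zero_sub]
    rfl
  · left
    apply Subtype.ext
    rw [h5]
    have e1 : t * (t ^ 2 - 1) * t - (t ^ 2 - 1) - t ^ 2 = 0 := by
      linear_combination (t ^ 2 - t - 1) * h
    have e2 : (t ^ 2 - 1) * t - t = -1 := by
      linear_combination (t - 1) * h
    rw [e1, e2, zero_smul, neg_smul, one_smul, zero_sub, neg_neg]
    rfl

lemma exists_sq_add_sq [Finite K] : ∃ a b : K, a ^ 2 + b ^ 2 = -1 := by
  obtain ⟨p, hp⟩ := CharP.exists K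
  have := hp
  have : Fact p.Prime := ⟨CharP.char_is_prime K p⟩
  have : NeZero p := ⟨(Fact.out : p.Prime).ne_zero⟩
  obtain ⟨a, b, h⟩ := CharP.sq_add_sq K p (-1)
  exact ⟨a, b, by simpa using h⟩

end

lemma chk_233 : chk 0 T12
    ⟨(0, 0), (-2, 0), (0, 0), (0, 0)⟩
    ⟨(-1, 0), (-1, 0), (-1, 0), (-1, 0)⟩
    ⟨(-1, 0), (1, 0), (-1, 0), (1, 0)⟩ = true := by
  decide +kernel

lemma chk_333 : chk 0 T12
    ⟨(-1, 0), (-1, 0), (-1, 0), (-1, 0)⟩
    ⟨(-1, 0), (-1, 0), (1, 0), (1, 0)⟩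
    ⟨(1, 0), (1, 0), (1, 0), (-1, 0)⟩ = true := by
  decide +kernel

lemma chk_235 : chk 1 T60
    ⟨(0, 0), (-2, 0), (0, 0), (0, 0)⟩
    ⟨(-1, 0), (-1, 1), (0, -1), (0, 0)⟩
    ⟨(-1, 1), (1, 0), (0, 0), (0, 1)⟩ = true := by
  decide +kernel

lemma chk_255 : chk 1 T60
    ⟨(0, 0), (-2, 0), (0, 0), (0, 0)⟩
    ⟨(-1, 1), (0, -1), (-1, 0), (0, 0)⟩
    ⟨(0, -1), (1, -1), (0, 0), (1, 0)⟩ = true := by
  decide +kernel

lemma chk_335 : chk 1 T60
    ⟨(-1, 0), (-1, 0), (-1, 0), (-1, 0)⟩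
    ⟨(-1, 0), (-1, 1), (0, 1), (0, 0)⟩
    ⟨(0, 1), (1, 0), (1, -1), (0, 0)⟩ = true := by
  decide +kernel

lemma chk_355 : chk 1 T60
    ⟨(-1, 0), (-1, 0), (-1, 0), (-1, 0)⟩
    ⟨(-1, 1), (-1, 0), (0, 0), (0, -1)⟩
    ⟨(0, -1), (1, 0), (1, -1), (0, 0)⟩ = true := by
  decide +kernel

lemma chk_555 : chk 1 T60
    ⟨(-1, 1), (-1, 0), (0, 0), (0, -1)⟩
    ⟨(-1, 1), (0, -1), (-1, 0), (0, 0)⟩
    ⟨(1, -1), (0, -1), (1, 0), (0, 0)⟩ = true := by
  decide +kernel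

theorem stmt_ICO : Stmt_ICO := by
  intro K _ _ h2 h3 k1 k2 k3 h
  obtain ⟨a, b, hab⟩ := exists_sq_add_sq (K := K)
  have l12 : T12.length ≤ 60 := by decide
  have l60 : T60.length ≤ 60 := by decide
  have hφ0 : (0 : K) ^ 2 = ((0 : ℤ) : K) * 0 + ((0 : ℤ) : K) := by simp
  rcases h with h | h | ⟨⟨φ, hφ⟩, h5, h⟩
  ·
    simp only [Prod.mk.injEq] at h
    obtain ⟨rfl, rfl, rfl⟩ := h
    obtain ⟨x, y, hx, hy, hxy, hcard⟩ := master hab hφ0 h2 T12 l12 _ _ _ chk_233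
    simp [val] at hx hy hxy
    refine ⟨x, y, ?_, ?_, ?_, ?_, hcard⟩
    · simp only [kp, kap, hx, hy, hxy]
      intro hk
      apply h2
      linear_combination -hk
    · exact pow2_of_tr hx
    · exact pow3_of_tr (Or.inr hy)
    · exact pow3_of_tr (Or.inr hxy)
  ·
    simp only [Prod.mk.injEq] at h
    obtain ⟨rfl, rfl, rfl⟩ := h
    obtain ⟨x, y, hx, hy, hxy, hcard⟩ := master hab hφ0 h2 T12 l12 _ _ _ chk_333
    simp [val] at hx hy hxy
    refine ⟨x, y, ?_, ?_, ?_, ?_, hcard⟩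
    · simp only [kp, kap, hx, hy, hxy]
      intro hk
      apply h2
      linear_combination -hk
    · exact pow3_of_tr (Or.inr hx)
    · exact pow3_of_tr (Or.inr hy)
    · exact pow3_of_tr (Or.inl hxy)
  · have hφ1 : φ ^ 2 = ((1 : ℤ) : K) * φ + ((1 : ℤ) : K) := by simpa using hφ
    rcases h with h | h | h | h | h
    ·
      simp only [Prod.mk.injEq] at h
      obtain ⟨rfl, rfl, rfl⟩ := h
      obtain ⟨x, y, hx, hy, hxy, hcard⟩ := master hab hφ1 h2 T60 l60 _ _ _ chk_235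
      simp [val] at hx hy hxy
      refine ⟨x, y, ?_, ?_, ?_, ?_, hcard⟩
      · simp only [kp, kap, hx, hy, hxy]
        intro hk
        have h1 : φ = -1 := by linear_combination ((1) * φ ^ 0 + (0) * φ ^ 1) * hφ - hk
        apply one_ne_zero (α := K)
        rw [h1] at hφ
        linear_combination hφ
      · exact pow2_of_tr hx
      · exact pow3_of_tr (Or.inr hy)
      · exact pow5_of_tr (Or.inr (by rw [hxy]; linear_combination hφ))
    ·
      simp only [Prod.mk.injEq] at h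
      obtain ⟨rfl, rfl, rfl⟩ := h
      obtain ⟨x, y, hx, hy, hxy, hcard⟩ := master hab hφ1 h2 T60 l60 _ _ _ chk_255
      simp [val] at hx hy hxy
      refine ⟨x, y, ?_, ?_, ?_, ?_, hcard⟩
      · simp only [kp, kap, hx, hy, hxy]
        intro hk
        apply one_ne_zero (α := K)
        linear_combination ((2) * φ ^ 0 + (0) * φ ^ 1) * hφ - hk
      · exact pow2_of_tr hx
      · exact pow5_of_tr (Or.inr (by rw [hy]; linear_combination hφ))
      · exact pow5_of_tr (Or.inr (by rw [hxy]; linear_combination hφ))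
    ·
      simp only [Prod.mk.injEq] at h
      obtain ⟨rfl, rfl, rfl⟩ := h
      obtain ⟨x, y, hx, hy, hxy, hcard⟩ := master hab hφ1 h2 T60 l60 _ _ _ chk_335
      simp [val] at hx hy hxy
      refine ⟨x, y, ?_, ?_, ?_, ?_, hcard⟩
      · simp only [kp, kap, hx, hy, hxy]
        intro hk
        apply one_ne_zero (α := K)
        linear_combination ((1) * φ ^ 0 + (0) * φ ^ 1) * hφ - hk
      · exact pow3_of_tr (Or.inr hx)
      · exact pow3_of_tr (Or.inr hy)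
      · exact pow5_of_tr (Or.inl (by rw [hxy]; linear_combination hφ))
    ·
      simp only [Prod.mk.injEq] at h
      obtain ⟨rfl, rfl, rfl⟩ := h
      obtain ⟨x, y, hx, hy, hxy, hcard⟩ := master hab hφ1 h2 T60 l60 _ _ _ chk_355
      simp [val] at hx hy hxy
      refine ⟨x, y, ?_, ?_, ?_, ?_, hcard⟩
      · simp only [kp, kap, hx, hy, hxy]
        intro hk
        apply one_ne_zero (α := K)
        linear_combination ((1) * φ ^ 0 + (0) * φ ^ 1) * hφ - hk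
      · exact pow3_of_tr (Or.inr hx)
      · exact pow5_of_tr (Or.inr (by rw [hy]; linear_combination hφ))
      · exact pow5_of_tr (Or.inr (by rw [hxy]; linear_combination hφ))
    ·
      simp only [Prod.mk.injEq] at h
      obtain ⟨rfl, rfl, rfl⟩ := h
      obtain ⟨x, y, hx, hy, hxy, hcard⟩ := master hab hφ1 h2 T60 l60 _ _ _ chk_555
      simp [val] at hx hy hxy
      refine ⟨x, y, ?_, ?_, ?_, ?_, hcard⟩
      · simp only [kp, kap, hx, hy, hxy]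
        intro hk
        have h1 : φ = -1 := by linear_combination ((1) * φ ^ 0 + (1) * φ ^ 1) * hφ - hk
        apply one_ne_zero (α := K)
        rw [h1] at hφ
        linear_combination hφ
      · exact pow5_of_tr (Or.inr (by rw [hx]; linear_combination hφ))
      · exact pow5_of_tr (Or.inr (by rw [hy]; linear_combination hφ))
      · exact pow5_of_tr (Or.inl (by rw [hxy]; linear_combination hφ))

end Pool.FG.helper30
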