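import Pool.Agent.Work.MP_65e34f.Basic

/-! Block UNQ: irreducible pairs with the same traces are conjugate. -/

namespace Pool.FG.helper30

open Matrix Pool.FG

variable {K : Type} [Field K]

/-- companion matrix -/
def cpn (s : K) : M2 K := !![0, -1; 1, s]

lemma unq_entries (s u1 v1 w1 z1 u2 v2 w2 z2 : K)
    (h1 : u1 * z1 - v1 * w1 = 1) (h2 : u2 * z2 - v2 * w2 = 1) (htr : u1 + z1 = u2 + z2)
    (ht : -w1 + v1 + s * z1 = -w2 + v2 + s * z2)
    (hk : kap s (u1 + z1) (-w1 + v1 + s * z1) ≠ 2) :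
    ∃ α β : K, α ^ 2 + α * β * s + β ^ 2 ≠ 0 ∧
      α * (u1 - u2) + β * (-w1 - v2) = 0 ∧
      α * (v1 - v2) + β * (-z1 + u2 - s * v2) = 0 ∧
      α * (w1 - w2) + β * (u1 + s * w1 - z2) = 0 ∧
      α * (z1 - z2) + β * (v1 + s * z1 + w2 - s * z2) = 0 := by
  have hz1 : z1 = u2 + z2 - u1 := by linear_combination htr
  have hw1 : w1 = w2 - v2 - s * z2 + v1 + s * z1 := by linear_combination -ht
  -- the minors
  have m01 : (u1 - u2) * (-z1 + u2 - s * v2) - (v1 - v2) * (-w1 - v2) = 0 := by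
    subst hw1; subst hz1
    linear_combination (-1 : K) * (h1 - h2)
  have m02 : (u1 - u2) * (u1 + s * w1 - z2) - (w1 - w2) * (-w1 - v2) = 0 := by
    subst hw1; subst hz1
    linear_combination (-1 : K) * (h1 - h2)
  have m03 : (u1 - u2) * (v1 + s * z1 + w2 - s * z2) - (z1 - z2) * (-w1 - v2) = 0 := by
    subst hw1; subst hz1
    ring
  have m12 : (v1 - v2) * (u1 + s * w1 - z2) - (w1 - w2) * (-z1 + u2 - s * v2) = 0 := by
    subst hw1; subst hz1
    linear_combination (-s : K) * (h1 - h2)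
  have m13 : (v1 - v2) * (v1 + s * z1 + w2 - s * z2) - (z1 - z2) * (-z1 + u2 - s * v2) = 0 := by
    subst hw1; subst hz1
    linear_combination (-1 : K) * (h1 - h2)
  have m23 : (w1 - w2) * (v1 + s * z1 + w2 - s * z2) - (z1 - z2) * (u1 + s * w1 - z2) = 0 := by
    subst hw1; subst hz1
    linear_combination (-1 : K) * (h1 - h2)
  -- a nonzero solution
  have hsol : ∃ α β : K, (α ≠ 0 ∨ β ≠ 0) ∧
      α * (u1 - u2) + β * (-w1 - v2) = 0 ∧
      α * (v1 - v2) + β * (-z1 + u2 - s * v2) = 0 ∧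
      α * (w1 - w2) + β * (u1 + s * w1 - z2) = 0 ∧
      α * (z1 - z2) + β * (v1 + s * z1 + w2 - s * z2) = 0 := by
    by_cases d0 : u1 - u2 = 0
    · by_cases d1 : v1 - v2 = 0
      · by_cases d2 : w1 - w2 = 0
        · by_cases d3 : z1 - z2 = 0
          · exact ⟨1, 0, Or.inl one_ne_zero, by rw [d0]; ring, by rw [d1]; ring,
              by rw [d2]; ring, by rw [d3]; ring⟩
          · refine ⟨v1 + s * z1 + w2 - s * z2, -(z1 - z2), Or.inr (neg_ne_zero.mpr d3),
              ?_, ?_, ?_, ?_⟩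
            · linear_combination m03
            · linear_combination m13
            · linear_combination m23
            · ring
        · refine ⟨u1 + s * w1 - z2, -(w1 - w2), Or.inr (neg_ne_zero.mpr d2), ?_, ?_, ?_, ?_⟩
          · linear_combination m02
          · linear_combination m12
          · ring
          · linear_combination -m23
      · refine ⟨-z1 + u2 - s * v2, -(v1 - v2), Or.inr (neg_ne_zero.mpr d1), ?_, ?_, ?_, ?_⟩
        · linear_combination m01
        · ring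
        · linear_combination -m12
        · linear_combination -m13
    · refine ⟨-w1 - v2, -(u1 - u2), Or.inr (neg_ne_zero.mpr d0), ?_, ?_, ?_, ?_⟩
      · ring
      · linear_combination -m01
      · linear_combination -m02
      · linear_combination -m03
  obtain ⟨α, β, hne, e0, e1, e2, e3⟩ := hsol
  refine ⟨α, β, ?_, e0, e1, e2, e3⟩
  intro hdet
  -- a common eigenvector
  have hβ : β ≠ 0 := by
    rintro rfl
    rcases hne with h | h
    · have : α ^ 2 = 0 := by linear_combination hdet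
      exact h (pow_eq_zero_iff (two_ne_zero) |>.mp this)
    · exact h rfl
  obtain ⟨l, hl⟩ : ∃ l : K, α = -(l * β) := ⟨-(α / β), by field_simp⟩
  subst hl
  have hβ2 : β ^ 2 ≠ 0 := pow_ne_zero 2 hβ
  have hl1 : l * (s - l) = 1 := by
    have : β ^ 2 * (l ^ 2 - l * s + 1) = 0 := by linear_combination hdet
    have := (mul_eq_zero.mp this).resolve_left hβ2
    linear_combination -this
  have f0 : -w1 - v2 = l * (u1 - u2) := by
    have : β * ((-w1 - v2) - l * (u1 - u2)) = 0 := by linear_combination e0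
    have := (mul_eq_zero.mp this).resolve_left hβ
    linear_combination this
  have f1 : -z1 + u2 - s * v2 = l * (v1 - v2) := by
    have : β * ((-z1 + u2 - s * v2) - l * (v1 - v2)) = 0 := by linear_combination e1
    have := (mul_eq_zero.mp this).resolve_left hβ
    linear_combination this
  have e4 : w1 = l * z1 - l * u1 + l ^ 2 * v1 := by
    linear_combination -f0 + l * f1 + v2 * hl1
  have hm : (u1 - l * v1) * (z1 + l * v1) = 1 := by
    linear_combination h1 + v1 * e4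
  apply hk
  have ht' : -w1 + v1 + s * z1 = l * (u1 - l * v1) + (s - l) * (z1 + l * v1) := by
    linear_combination -e4 - v1 * hl1
  rw [ht']
  unfold kap
  have hs : s = l + (s - l) := by ring
  have hu : u1 + z1 = (u1 - l * v1) + (z1 + l * v1) := by ring
  rw [hu]
  generalize u1 - l * v1 = m at *
  generalize z1 + l * v1 = m' at *
  obtain ⟨l', hl'⟩ : ∃ l', l' = s - l := ⟨_, rfl⟩
  rw [← hl'] at hl1 ⊢
  have hs' : s = l + l' := by rw [hl']; ring
  rw [hs']
  linear_combination (2 - m ^ 2 - m' ^ 2) * hl1 + (2 - l ^ 2 - l' ^ 2) * hm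

/-- companion matrix as an element of `SL_2` -/
def cpSL (s : K) : SL K := ⟨!![0, -1; 1, s], by simp [Matrix.det_fin_two]⟩

lemma tr_cpSL (s : K) : tr (cpSL s) = s := by simp [cpSL, tr]

lemma not_Sc_cpSL (s : K) : ¬ Sc (cpSL s) := by
  intro h
  have := ((Sc_iff _).mp h).2.1
  simp [cpSL] at this

lemma not_Sc_of_kp {x y : SL K} (h : kp x y ≠ 2) : ¬ Sc x := by
  rintro (rfl | rfl)
  · apply h; simp [kp, kap]; ring
  · apply h; simp [kp, kap]; ring

theorem stmt_UNQ (hC : Stmt_CNJ) : Stmt_UNQ := by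
  intro K _ x y x' y' hk hx hy hxy
  have hk' : kp x' y' ≠ 2 := by
    intro h
    apply hk
    rw [← h]
    simp only [kp, hx, hy, hxy]
  have hx0 : ¬ Sc x := not_Sc_of_kp hk
  have hx0' : ¬ Sc x' := not_Sc_of_kp hk'
  obtain ⟨s, hs⟩ : ∃ s, s = tr x := ⟨_, rfl⟩
  obtain ⟨g1, hg1⟩ := (hC K).1 x (cpSL s) hx0 (not_Sc_cpSL s) (by rw [tr_cpSL, hs])
  obtain ⟨g2, hg2⟩ := (hC K).1 x' (cpSL s) hx0' (not_Sc_cpSL s) (by rw [tr_cpSL, hs, hx])
  obtain ⟨C, hCd⟩ : ∃ C : M2 K, C = (cpSL s : M2 K) := ⟨_, rfl⟩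
  rw [← hCd] at hg1 hg2
  have i1 : ((g1⁻¹ : GL (Fin 2) K) : M2 K) * (g1 : M2 K) = 1 := by
    rw [← Units.val_mul, inv_mul_cancel, Units.val_one]
  have i1' : (g1 : M2 K) * ((g1⁻¹ : GL (Fin 2) K) : M2 K) = 1 := by
    rw [← Units.val_mul, mul_inv_cancel, Units.val_one]
  have i2 : ((g2⁻¹ : GL (Fin 2) K) : M2 K) * (g2 : M2 K) = 1 := by
    rw [← Units.val_mul, inv_mul_cancel, Units.val_one]
  have i2' : (g2 : M2 K) * ((g2⁻¹ : GL (Fin 2) K) : M2 K) = 1 := by
    rw [← Units.val_mul, mul_inv_cancel, Units.val_one]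
  -- conjugates
  have key : ∀ (g gi : M2 K) (z w : SL K), gi * g = 1 → g * gi = 1 →
      g * (z : M2 K) = C * g → ∃ u v p q : K,
        g * (w : M2 K) = !![u, v; p, q] * g ∧ u * q - v * p = 1 ∧ u + q = tr w ∧
        -p + v + s * q = tr (z * w) := by
    intro g gi z w h1 h2 hz
    refine ⟨(g * (w : M2 K) * gi) 0 0, (g * (w : M2 K) * gi) 0 1, (g * (w : M2 K) * gi) 1 0,
      (g * (w : M2 K) * gi) 1 1, ?_, ?_, ?_, ?_⟩
    · rw [← Matrix.eta_fin_two, mul_assoc, h1, mul_one]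
    · rw [← Matrix.det_fin_two, Matrix.det_mul, Matrix.det_mul, w.2, mul_one, ← Matrix.det_mul,
        h2, Matrix.det_one]
    · rw [← Matrix.trace_fin_two, Matrix.trace_mul_comm, ← mul_assoc, h1, one_mul,
        ← tr_eq_trace]
    · have : tr (z * w) = (C * (g * (w : M2 K) * gi)).trace := by
        rw [tr_eq_trace, Matrix.SpecialLinearGroup.coe_mul]
        have : C * (g * (w : M2 K) * gi) = g * ((z : M2 K) * (w : M2 K)) * gi := by
          rw [← mul_assoc, ← mul_assoc, ← hz]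
          simp only [mul_assoc]
        rw [this, Matrix.trace_mul_comm (g * ((z : M2 K) * (w : M2 K))) gi, ← mul_assoc, h1,
          one_mul]
      rw [this, Matrix.trace_fin_two, hCd]
      simp [cpSL, Matrix.mul_apply, Fin.sum_univ_two]
      ring
  obtain ⟨u1, v1, w1, z1, a1, b1, c1, d1⟩ := key g1 (g1⁻¹ : GL (Fin 2) K) x y i1 i1' hg1
  obtain ⟨u2, v2, w2, z2, a2, b2, c2, d2⟩ := key g2 (g2⁻¹ : GL (Fin 2) K) x' y' i2 i2' hg2
  obtain ⟨α, β, hdet, e0, e1, e2, e3⟩ := unq_entries s u1 v1 w1 z1 u2 v2 w2 z2 b1 b2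
    (by rw [c1, c2, hy]) (by rw [d1, d2, hxy]) (by
      rw [c1, d1, hs]; exact hk)
  obtain ⟨h, hh⟩ : ∃ h : GL (Fin 2) K, (h : M2 K) = !![α, -β; β, α + β * s] := by
    refine ⟨Matrix.GeneralLinearGroup.mkOfDetNeZero !![α, -β; β, α + β * s] ?_, rfl⟩
    rw [Matrix.det_fin_two]
    simp only [Matrix.of_apply, Matrix.cons_val', Matrix.cons_val_zero, Matrix.cons_val_one]
    intro h0
    apply hdet
    simp at h0
    linear_combination h0
  have hC1 : (h : M2 K) * C = C * (h : M2 K) := by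
    rw [hh, hCd]
    ext i j
    fin_cases i <;> fin_cases j <;>
      simp [cpSL, Matrix.mul_apply, Fin.sum_univ_two] <;> ring
  have hY : (h : M2 K) * !![u1, v1; w1, z1] = !![u2, v2; w2, z2] * (h : M2 K) := by
    rw [hh]
    ext i j
    fin_cases i <;> fin_cases j <;>
      simp [Matrix.mul_apply, Fin.sum_univ_two] <;>
      first | linear_combination e0 | linear_combination e1 | linear_combination e2 |
        linear_combination e3
  refine ⟨g2⁻¹ * h * g1, ?_, ?_⟩
  · rw [Units.val_mul, Units.val_mul, mul_assoc, hg1, ← mul_assoc, mul_assoc _ (h : M2 K) C, hC1]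
    have : ((g2⁻¹ : GL (Fin 2) K) : M2 K) * C = (x' : M2 K) * ((g2⁻¹ : GL (Fin 2) K) : M2 K) := by
      calc ((g2⁻¹ : GL (Fin 2) K) : M2 K) * C
          = ((g2⁻¹ : GL (Fin 2) K) : M2 K) * (C * (g2 : M2 K)) *
              ((g2⁻¹ : GL (Fin 2) K) : M2 K) := by
            rw [mul_assoc, mul_assoc, i2', mul_one]
        _ = _ := by rw [← hg2, ← mul_assoc, i2, one_mul]
    rw [← mul_assoc, this]
    simp only [mul_assoc]
  · rw [Units.val_mul, Units.val_mul, mul_assoc, a1, ← mul_assoc, mul_assoc _ (h : M2 K) _, hY]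
    have : ((g2⁻¹ : GL (Fin 2) K) : M2 K) * !![u2, v2; w2, z2] =
        (y' : M2 K) * ((g2⁻¹ : GL (Fin 2) K) : M2 K) := by
      calc ((g2⁻¹ : GL (Fin 2) K) : M2 K) * !![u2, v2; w2, z2]
          = ((g2⁻¹ : GL (Fin 2) K) : M2 K) * (!![u2, v2; w2, z2] * (g2 : M2 K)) *
              ((g2⁻¹ : GL (Fin 2) K) : M2 K) := by
            rw [mul_assoc, mul_assoc, i2', mul_one]
        _ = _ := by rw [← a2, ← mul_assoc, i2, one_mul]
    rw [← mul_assoc, this]
    simp only [mul_assoc]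

end Pool.FG.helper30
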